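import Pool.Agent.H552R2.RM.Defs

/-!
A null cover which reads its bets from the oracle.

The part `T` of the oracle tells for every `p` whether a bet is made on the string number `p`
(if `1^p ∈ T`), and which bit is predicted (`true` if `0 1^p ∈ T`).
-/

namespace Pool.Agent.TH755.PM

open Function MeasureTheory
open Pool.Agent.Helper556.OM Pool.Agent.H552R2.RM

/-- The join of two oracles: the strings `false :: u` with `u ∈ T` and the strings `true :: u` with
`u ∈ O`. -/
def join (T O : Set (List Bool)) : Set (List Bool) :=
  {z | (∃ u ∈ T, z = false :: u) ∨ ∃ u ∈ O, z = true :: u}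

theorem false_mem_join {T O : Set (List Bool)} {u : List Bool} :
    false :: u ∈ join T O ↔ u ∈ T := by
  constructor
  · rintro (⟨v, hv, h⟩ | ⟨v, -, h⟩)
    · rw [List.cons.injEq] at h
      rw [h.2]
      exact hv
    · rw [List.cons.injEq] at h
      exact absurd h.1 (by decide)
  · intro h
    exact Or.inl ⟨u, h, rfl⟩

/-- the state: number of bits read, exponent, number of correct predictions since the last wrong
one -/
structure Sta where
  p : ℕ
  e : ℕ
  m : ℕ

open Classical in
/-- reading a bit -/
noncomputable def stp (T : Set (List Bool)) (s : Sta) (b : Bool) : Sta :=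
  if List.replicate s.p true ∈ T then
    (if (false :: List.replicate s.p true ∈ T ↔ b = true) then ⟨s.p + 1, s.e, s.m + 1⟩
      else ⟨s.p + 1, s.e + 2, 0⟩)
  else ⟨s.p + 1, s.e, s.m⟩

/-- the state after reading `w` -/
noncomputable def sta (T : Set (List Bool)) (k : ℕ) (w : List Bool) : Sta :=
  w.foldl (stp T) ⟨0, k + 2, 0⟩

/-- the value of a state -/
noncomputable def val (s : Sta) : ℝ := (2 ^ (s.m + 1) + 1) / 2 ^ s.e

end Pool.Agent.TH755.PM
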