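import Pool.Agent.TH755.PM.Prog
import Pool.Agent.H552R2.RM.F_A3
import Pool.Agent.H552R2.RM.F_PI3

/-!
The values form a null cover of every language which is predicted correctly on long intervals.
-/

namespace Pool.Agent.TH755.PM

open Function MeasureTheory
open Pool.Agent.Helper556.OM Pool.Agent.H552R2 Pool.Agent.H552R2.RM

variable {T : Set (List Bool)}

theorem sta_append (T : Set (List Bool)) (k : ℕ) (w : List Bool) (b : Bool) :
    sta T k (w ++ [b]) = stp T (sta T k w) b := by
  unfold sta
  rw [List.foldl_append]
  rfl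

theorem stp_p (s : Sta) (b : Bool) : (stp T s b).p = s.p + 1 := by
  classical
  unfold stp
  split_ifs <;> rfl

theorem sta_p (T : Set (List Bool)) (k : ℕ) (w : List Bool) : (sta T k w).p = w.length := by
  induction w using List.reverseRecOn with
  | nil => rfl
  | append_singleton w b ih =>
      rw [sta_append, stp_p, ih, List.length_append, List.length_singleton]

theorem val_nonneg (s : Sta) : 0 ≤ val s := by
  unfold val
  positivity

theorem val_step (s : Sta) : val (stp T s false) + val (stp T s true) ≤ 2 * val s := by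
  classical
  obtain ⟨p, e, m⟩ := s
  have hkey : val ⟨p + 1, e, m + 1⟩ + val ⟨p + 1, e + 2, 0⟩ ≤ 2 * val ⟨p, e, m⟩ := by
    unfold val
    simp only
    have h1 : (0 : ℝ) < 2 ^ e := by positivity
    have h2 : ((2 : ℝ) ^ (0 + 1) + 1) / 2 ^ (e + 2) = (3 / 4) / 2 ^ e := by
      rw [pow_add]
      field_simp
      ring
    rw [h2, ← add_div, mul_div_assoc', div_le_div_iff_of_pos_right h1, pow_succ 2 (m + 1)]
    linarith
  unfold stp
  simp only
  by_cases h1 : List.replicate p true ∈ T
  · rw [if_pos h1, if_pos h1]
    by_cases h2 : false :: List.replicate p true ∈ T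
    · rw [if_neg (by simp [h2]), if_pos (by simp [h2]), add_comm]
      exact hkey
    · rw [if_pos (by simp [h2]), if_neg (by simp [h2])]
      exact hkey
  · rw [if_neg h1, if_neg h1]
    unfold val
    simp only
    linarith

theorem val_init (T : Set (List Bool)) (k : ℕ) : val (sta T k []) ≤ (1 / 2) ^ k := by
  unfold sta val
  simp only [List.foldl_nil]
  have h : (0 : ℝ) < 2 ^ k := by positivity
  have h2 : ((2 : ℝ) ^ (0 + 1) + 1) / 2 ^ (k + 2) = (3 / 4) * (1 / 2 ^ k) := by
    rw [pow_add]
    field_simp
    ring
  rw [h2, one_div_pow]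
  have h3 : (0 : ℝ) < 1 / 2 ^ k := by positivity
  linarith

open Classical in
/-- the number of bets on the first `n` strings -/
noncomputable def cnt (T : Set (List Bool)) (n : ℕ) : ℕ :=
  ((Finset.range n).filter (fun p => List.replicate p true ∈ T)).card

theorem sta_e (T : Set (List Bool)) (k : ℕ) (w : List Bool) :
    (sta T k w).e ≤ k + 2 + 2 * cnt T w.length := by
  classical
  induction w using List.reverseRecOn with
  | nil => exact Nat.le_add_right _ _
  | append_singleton w b ih =>
      rw [sta_append, List.length_append, List.length_singleton]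
      have hp := sta_p T k w
      have hc : cnt T (w.length + 1) = cnt T w.length +
          (if List.replicate w.length true ∈ T then 1 else 0) := by
        unfold cnt
        rw [Finset.range_add_one, Finset.filter_insert]
        split_ifs with h
        · rw [Finset.card_insert_of_notMem (by simp)]
        · rfl
      rw [hc]
      unfold stp
      rw [hp]
      split_ifs <;> simp only <;> omega

/-- the language `L` is predicted correctly on the strings number `a, …, a + l - 1` -/
def Good (T L : Set (List Bool)) (a l : ℕ) : Prop :=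
  ∀ p, a ≤ p → p < a + l → List.replicate p true ∈ T ∧
    (false :: List.replicate p true ∈ T ↔ str p ∈ L)

theorem sta_good {L : Set (List Bool)} {a l : ℕ} (h : Good T L a l) (k : ℕ) : ∀ j ≤ l,
    (sta T k (pre L (a + j))).e = (sta T k (pre L a)).e ∧
    j ≤ (sta T k (pre L (a + j))).m := by
  classical
  intro j
  induction j with
  | zero => intro _; exact ⟨rfl, Nat.zero_le _⟩
  | succ j ih =>
      intro hj
      obtain ⟨h1, h2⟩ := ih (by omega)
      obtain ⟨h3, h4⟩ := h (a + j) (by omega) (by omega)
      have hp : (sta T k (pre L (a + j))).p = a + j := by rw [sta_p, pre_length]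
      rw [← Nat.add_assoc, pre_succ, sta_append]
      have hs : stp T (sta T k (pre L (a + j))) (decide (str (a + j) ∈ L)) =
          ⟨a + j + 1, (sta T k (pre L (a + j))).e, (sta T k (pre L (a + j))).m + 1⟩ := by
        unfold stp
        rw [hp, if_pos h3, if_pos (by rw [h4, decide_eq_true_iff])]
      rw [hs]
      exact ⟨h1, by simp only; omega⟩

theorem cover {L : Set (List Bool)} {a l : ℕ} (h : Good T L a l) (k : ℕ)
    (hk : k + 2 + 2 * cnt T a ≤ l + 1) : 1 ≤ val (sta T k (pre L (a + l))) := by
  obtain ⟨h1, h2⟩ := sta_good h k l le_rfl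
  have h3 := sta_e T k (pre L a)
  rw [pre_length] at h3
  unfold val
  rw [le_div_iff₀ (by positivity), one_mul]
  have h4 : (2 : ℝ) ^ (sta T k (pre L (a + l))).e ≤ 2 ^ ((sta T k (pre L (a + l))).m + 1) :=
    pow_le_pow_right₀ (by norm_num) (by omega)
  linarith

/-- the criterion -/
theorem null_of_good {A : Set (List Bool)} (hT : ∀ u, false :: u ∈ A ↔ u ∈ T)
    {X : Set (Set (List Bool))}
    (h : ∀ L ∈ X, ∀ k, ∃ a l, Good T L a l ∧ k + 2 + 2 * cnt T a ≤ l + 1) : Null poly A X := by
  refine ⟨fun k w => val (sta T k w), fun k _ w => val (sta T k w), 40, comp_val hT,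
    fun k r w => ?_, fun k w => val_nonneg _, fun k w => ?_, fun k => val_init T k,
    fun k L hL => ?_⟩
  · rw [sub_self, abs_zero]
    positivity
  · simp only [sta_append]
    exact val_step _
  · obtain ⟨a, l, h1, h2⟩ := h L hL k
    exact ⟨a + l, cover h1 k h2⟩

/-- the languages in `NP` or `PSPACE` -/
theorem null_np_ps {T O : Set (List Bool)}
    (h : ∀ i k, ∃ a l, Good T {x | (Phi i).F x (join T O)} a l ∧
      k + 2 + 2 * cnt T a ≤ l + 1) :
    Null poly (join T O) {L | InNP (join T O) L ∨ InPSPACE (join T O) L} := by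
  refine null_of_good (fun u => false_mem_join) ?_
  intro L hL k
  have h1 : ∃ j, ∀ x, (x ∈ L ↔ (Phi j).F x (join T O)) := by
    rcases hL with hL | hL
    · exact a3_np hL
    · exact a3_ps hL
  obtain ⟨j, hj⟩ := h1
  have h2 : L = {x | (Phi j).F x (join T O)} := Set.ext hj
  rw [h2]
  exact h j k

end Pool.Agent.TH755.PM
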