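import Pool.Agent.TH755.PM.Sparse

/-!
Generic oracles.
-/

namespace Pool.Agent.TH755.PM

open Function MeasureTheory Filter
open Pool.Agent.Helper556.OM Pool.Agent.H552R2 Pool.Agent.H552R2.RM

/-- the set given by a characteristic function -/
def ofChar (χ : List Bool → Bool) : Set (List Bool) := {z | χ z = true}

/-- the part of the oracle below `false` -/
def low (A : Set (List Bool)) : Set (List Bool) := {u | false :: u ∈ A}

/-- the condition for the language number `i` and the quality `k` -/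
def Wins (i k : ℕ) (A : Set (List Bool)) : Prop :=
  ∃ a l, Good (low A) {x | (Phi i).F x A} a l ∧ (k + 1) * (a + 2 + 2 * cnt (low A) a) ≤ l

/-- The class `X` has dimension `0` for polynomial time with oracle `A`: there is a density function
`d`, approximations `f r w` of which with error at most `2 ^ (-r)` are computed in polynomial time
with oracle `A` (from `r` in unary and `w`, if `k = 0`), such that for every language in `X` and
every `s > 0` the value of `d` for the prefix of length `n` is at least `2 ^ ((1 - s) * n)` for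
infinitely many `n`. -/
def DimZero (A : Set (List Bool)) (X : Set (Set (List Bool))) : Prop :=
  ∃ (d : List Bool → ℝ) (f : ℕ → ℕ → List Bool → ℝ) (c : ℕ),
    Comp A (poly c) f ∧ (∀ r w, |f 0 r w - d w| ≤ (1 / 2) ^ r) ∧ (∀ w, 0 ≤ d w) ∧
    (∀ w, d (w ++ [false]) + d (w ++ [true]) ≤ 2 * d w) ∧
    ∀ L ∈ X, ∀ s : ℝ, 0 < s → ∃ᶠ n : ℕ in atTop, (2 : ℝ) ^ ((1 - s) * (n : ℝ)) ≤ d (pre L n)

theorem dim_of_good {A T : Set (List Bool)} (hT : ∀ u, false :: u ∈ A ↔ u ∈ T)
    {X : Set (Set (List Bool))}
    (h : ∀ L ∈ X, ∀ k, ∃ a l, Good T L a l ∧ (k + 1) * (a + 2 + 2 * cnt T a) ≤ l) :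
    DimZero A X := by
  refine ⟨fun w => val (sta T 0 w), fun k _ w => val (sta T k w), 40, comp_val hT,
    fun r w => ?_, fun w => val_nonneg _, fun w => ?_, fun L hL s hs => ?_⟩
  · rw [sub_self, abs_zero]
    positivity
  · simp only [sta_append]
    exact val_step _
  · rw [frequently_atTop]
    intro n0
    obtain ⟨k0, hk0⟩ := exists_nat_gt (1 / s)
    obtain ⟨a, l, h1, h2⟩ := h L hL (k0 + n0)
    have hb : k0 + n0 + 1 ≤ (k0 + n0 + 1) * (a + 2 + 2 * cnt T a) :=
      Nat.le_mul_of_pos_right _ (by omega)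
    refine ⟨a + l, by omega, ?_⟩
    obtain ⟨h3, h4⟩ := sta_good h1 0 l le_rfl
    have h5 := sta_e T 0 (pre L a)
    rw [pre_length] at h5
    set c := cnt T a with hc
    set m := (sta T 0 (pre L (a + l))).m with hm
    set e := (sta T 0 (pre L (a + l))).e with he
    have h6 : (e : ℝ) ≤ 2 + 2 * c := by
      have : e ≤ 2 + 2 * c := by omega
      exact_mod_cast this
    have h7 : (l : ℝ) ≤ m := by exact_mod_cast h4
    have h8 : ((k0 : ℝ) + n0 + 1) * (a + 2 + 2 * c) ≤ l := by exact_mod_cast h2
    have h9 : (a : ℝ) + 2 + 2 * c ≤ s * l := by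
      have e1 : 1 / s ≤ (k0 : ℝ) + n0 + 1 := by
        have : (0 : ℝ) ≤ n0 := Nat.cast_nonneg _
        linarith
      have e2 : (0 : ℝ) ≤ a + 2 + 2 * c := by positivity
      have e3 : 1 / s * (a + 2 + 2 * c) ≤ l := (mul_le_mul_of_nonneg_right e1 e2).trans h8
      rw [one_div, inv_mul_le_iff₀ hs] at e3
      exact e3
    have h10 : (1 - s) * ((a + l : ℕ) : ℝ) ≤ (m : ℝ) + 1 - e := by
      push_cast
      have e1 : 0 ≤ s * (a : ℝ) := by positivity
      have e2 : (1 - s) * ((a : ℝ) + l) = a + l - s * a - s * l := by ring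
      rw [e2]
      linarith
    calc (2 : ℝ) ^ ((1 - s) * ((a + l : ℕ) : ℝ)) ≤ (2 : ℝ) ^ ((m : ℝ) + 1 - e) :=
          Real.rpow_le_rpow_of_exponent_le (by norm_num) h10
      _ = 2 ^ (m + 1) / 2 ^ e := by
          rw [Real.rpow_sub (by norm_num), Real.rpow_natCast]
          congr 1
          exact_mod_cast Real.rpow_natCast 2 (m + 1)
      _ ≤ val (sta T 0 (pre L (a + l))) := by
          unfold val
          rw [← hm, ← he]
          gcongr
          linarith

theorem dim_of_wins {A : Set (List Bool)} (h : ∀ i k, Wins i k A) :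
    DimZero A {L | InNP A L ∨ InPSPACE A L} := by
  refine dim_of_good (T := low A) (fun u => Iff.rfl) ?_
  intro L hL k
  have h1 : ∃ j, ∀ x, (x ∈ L ↔ (Phi j).F x A) := by
    rcases hL with hL | hL
    · exact a3_np hL
    · exact a3_ps hL
  obtain ⟨j, hj⟩ := h1
  have h2 : L = {x | (Phi j).F x A} := Set.ext hj
  rw [h2]
  exact h j k

theorem null_of_wins {A : Set (List Bool)} (h : ∀ i k, Wins i k A) :
    Null poly A {L | InNP A L ∨ InPSPACE A L} := by
  refine null_of_good (T := low A) (fun u => Iff.rfl) ?_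
  intro L hL k
  have h1 : ∃ j, ∀ x, (x ∈ L ↔ (Phi j).F x A) := by
    rcases hL with hL | hL
    · exact a3_np hL
    · exact a3_ps hL
  obtain ⟨j, hj⟩ := h1
  have h2 : L = {x | (Phi j).F x A} := Set.ext hj
  rw [h2]
  obtain ⟨a, l, h3, h4⟩ := h j k
  refine ⟨a, l, h3, ?_⟩
  have h5 : a + 2 + 2 * cnt (low A) a + k * 1 ≤ (k + 1) * (a + 2 + 2 * cnt (low A) a) := by
    rw [add_mul, one_mul, Nat.add_comm]
    exact Nat.add_le_add_right (Nat.mul_le_mul_left k (by omega)) _
  omega

theorem finite_le (N : ℕ) : {z : List Bool | z.length ≤ N}.Finite := by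
  have h : {z : List Bool | z.length ≤ N} = ⋃ i ∈ Finset.range (N + 1),
      {z : List Bool | z.length = i} := by
    ext z
    simp only [Set.mem_iUnion, Finset.mem_range, Set.mem_ofPred_eq]
    constructor
    · intro h
      exact ⟨z.length, by omega, rfl⟩
    · rintro ⟨i, hi, h⟩
      omega
  rw [h]
  exact Set.Finite.biUnion (Finset.finite_toSet _) (fun i _ => List.finite_length_eq Bool i)

/-- a property depending on finitely many values is open -/
theorem open_of_fin {P : (List Bool → Bool) → Prop} (N : ℕ)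
    (h : ∀ χ χ', (∀ z : List Bool, z.length ≤ N → χ z = χ' z) → P χ → P χ') :
    IsOpen {χ | P χ} := by
  rw [isOpen_pi_iff]
  intro χ hχ
  refine ⟨(finite_le N).toFinset, fun z => {χ z}, fun z _ => ⟨isOpen_discrete _, rfl⟩, ?_⟩
  intro χ' hχ'
  refine h χ χ' (fun z hz => ?_) hχ
  have := hχ' z (by
    rw [Finset.mem_coe, Set.Finite.mem_toFinset]
    exact hz)
  exact this.symm

theorem wins_open (i k : ℕ) : IsOpen {χ : List Bool → Bool | Wins i k (ofChar χ)} := by
  classical
  have h : {χ : List Bool → Bool | Wins i k (ofChar χ)} = ⋃ a : ℕ, ⋃ l : ℕ,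
      {χ | Good (low (ofChar χ)) {x | (Phi i).F x (ofChar χ)} a l ∧
        (k + 1) * (a + 2 + 2 * cnt (low (ofChar χ)) a) ≤ l} := by
    ext χ
    simp only [Set.mem_iUnion, Set.mem_ofPred_eq]
    exact Iff.rfl
  rw [h]
  refine isOpen_iUnion (fun a => isOpen_iUnion (fun l => ?_))
  set N := a + l + 2 + ((a + l) + ((a + l) ^ (Phi i).d + (Phi i).d)) with hN
  refine open_of_fin N (fun χ χ' hχ hP => ?_)
  have h1 : ∀ z : List Bool, z.length ≤ N → (z ∈ ofChar χ ↔ z ∈ ofChar χ') := by
    intro z hz
    change χ z = true ↔ χ' z = true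
    rw [hχ z hz]
  have h2 : ∀ p, p < a + l → (List.replicate p true ∈ low (ofChar χ) ↔
      List.replicate p true ∈ low (ofChar χ')) := by
    intro p hp
    exact h1 _ (by rw [List.length_cons, List.length_replicate]; omega)
  have h3 : ∀ p, p < a + l → (false :: List.replicate p true ∈ low (ofChar χ) ↔
      false :: List.replicate p true ∈ low (ofChar χ')) := by
    intro p hp
    exact h1 _ (by rw [List.length_cons, List.length_cons, List.length_replicate]; omega)
  have h4 : ∀ p, p < a + l → ((Phi i).F (str p) (ofChar χ) ↔ (Phi i).F (str p) (ofChar χ')) := by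
    intro p hp
    rw [(Phi i).loc, (Phi i).loc _ (ofChar χ')]
    have hl : (str p).length ≤ a + l := (pi_str_le p).trans hp.le
    have he : (str p).length ^ (Phi i).d ≤ (a + l) ^ (Phi i).d := Nat.pow_le_pow_left hl _
    have e : ofChar χ ∩ {z | z.length ≤ (str p).length + ((str p).length ^ (Phi i).d + (Phi i).d)} =
        ofChar χ' ∩ {z | z.length ≤ (str p).length + ((str p).length ^ (Phi i).d + (Phi i).d)} := by
      ext z
      simp only [Set.mem_inter_iff, Set.mem_ofPred_eq]
      exact and_congr_left (fun hz => h1 z (by omega))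
    rw [e]
  have h5 : cnt (low (ofChar χ)) a = cnt (low (ofChar χ')) a := by
    unfold cnt
    congr 1
    refine Finset.filter_congr (fun p hp => ?_)
    rw [Finset.mem_range] at hp
    exact h2 p (by omega)
  rw [← h5]
  refine ⟨fun p hp1 hp2 => ?_, hP.2⟩
  obtain ⟨h6, h7⟩ := hP.1 p hp1 hp2
  rw [Set.mem_ofPred_eq] at h7
  refine ⟨(h2 p hp2).1 h6, ?_⟩
  rw [← h3 p hp2, h7, Set.mem_ofPred_eq]
  exact h4 p hp2

/-- lengths for one more stage -/
theorem exists_len (d k N : ℕ) : ∃ v : ℕ, N ≤ 2 ^ v - 1 ∧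
    (v + k) + ((v + k) ^ d + d) ≤ 2 ^ v - 1 := by
  have h3 := (tendsto_pow_const_div_const_pow_of_one_lt (d + 2)
    (r := (2 : ℝ)) (by norm_num)).eventually_le_const (show (0 : ℝ) < (1 / 2) ^ k by positivity)
  obtain ⟨u, h4, h5⟩ := (h3.and (eventually_ge_atTop (d + 3 + k + N))).exists
  obtain ⟨v, rfl⟩ : ∃ v, u = v + k := ⟨u - k, by omega⟩
  rw [div_le_iff₀ (by positivity)] at h4
  have h40 : ((1 : ℝ) / 2) ^ k * 2 ^ (v + k) = 2 ^ v := by
    rw [pow_add, mul_comm ((2 : ℝ) ^ v), ← mul_assoc, ← mul_pow]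
    norm_num
  rw [h40] at h4
  have h6 : (v + k) ^ (d + 2) ≤ 2 ^ v := by exact_mod_cast h4
  have h7 : 1 ≤ (v + k) ^ d := Nat.one_le_pow _ _ (by omega)
  set y := v + k with hy
  have h8 : y ^ (d + 2) = y ^ d * (y * y) := by rw [pow_add, pow_two]
  have h9 : y ^ d * (y * y) = y ^ d + y ^ d * (y * y - 1) := by
    have : 1 ≤ y * y := Nat.one_le_iff_ne_zero.2 (by
      intro h0
      rcases Nat.mul_eq_zero.1 h0 with h0 | h0 <;> omega)
    conv_lhs => rw [show y * y = 1 + (y * y - 1) by omega]
    ring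
  have h10 : y * y - 1 ≤ y ^ d * (y * y - 1) := Nat.le_mul_of_pos_left _ h7
  have h11 : 3 * y ≤ y * y := Nat.mul_le_mul_right _ (by omega)
  have h12 : v < 2 ^ v := Nat.lt_two_pow_self
  have h13 : y + (y ^ d + d) + 1 ≤ y ^ (d + 2) := by
    rw [h8, h9]
    omega
  have h14 : y + (y ^ d + d) + 1 ≤ 2 ^ v := h13.trans h6
  exact ⟨v, by omega, Nat.le_sub_of_add_le h14⟩

/-- one more stage -/
theorem extend (i k N : ℕ) (X : Set (List Bool)) (hX : ∀ z ∈ X, z.length < N) :
    ∃ A : Set (List Bool), (∀ z : List Bool, z.length < N → (z ∈ A ↔ z ∈ X)) ∧ Wins i k A := by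
  classical
  set d := (Phi i).d with hd
  set q := (k + 1) * (3 + 2 * N) with hq
  obtain ⟨v, hv3, hv2⟩ := exists_len d q N
  set a := 2 ^ v - 1 with ha
  set l := (k + 1) * (a + 2 + 2 * N) with hl
  have hal : a + l + 1 < 2 ^ (v + q + 1) := by
    have e0 : 1 ≤ 2 ^ v := Nat.one_le_two_pow
    have e1 : l ≤ (k + 1) * (3 + 2 * N) * 2 ^ v := by
      rw [hl, mul_assoc]
      refine Nat.mul_le_mul_left _ ?_
      have : (3 + 2 * N) * 2 ^ v = 2 ^ v + (2 + 2 * N) * 2 ^ v := by ring
      have e2 : 2 + 2 * N ≤ (2 + 2 * N) * 2 ^ v := Nat.le_mul_of_pos_right _ e0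
      omega
    rw [← hq] at e1
    have e3 : q < 2 ^ q := Nat.lt_two_pow_self
    have e4 : (q + 1) * 2 ^ v ≤ 2 ^ q * 2 ^ v := Nat.mul_le_mul_right _ e3
    have e5 : 2 ^ (v + q + 1) = 2 * (2 ^ q * 2 ^ v) := by
      rw [pow_succ, pow_add]
      ring
    rw [add_mul, one_mul] at e4
    omega
  set A : Set (List Bool) := {z | z ∈ X ∨ ∃ j < l, z = false :: List.replicate (a + j) true ∨
    (z = false :: false :: List.replicate (a + j) true ∧ (Phi i).F (str (a + j)) X)} with hA
  have hlong : ∀ z ∈ A, z.length ≤ a → z ∈ X := by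
    rintro z (hz | ⟨j, -, rfl | ⟨rfl, -⟩⟩) hzl
    · exact hz
    · rw [List.length_cons, List.length_replicate] at hzl
      omega
    · rw [List.length_cons, List.length_cons, List.length_replicate] at hzl
      omega
  refine ⟨A, fun z hz => ⟨fun h => hlong z h (by omega), fun h => Or.inl h⟩, a, l, ?_, ?_⟩
  · intro p hp1 hp2
    obtain ⟨j, rfl⟩ := Nat.exists_eq_add_of_le hp1
    have hj : j < l := by omega
    refine ⟨Or.inr ⟨j, hj, Or.inl rfl⟩, ?_⟩
    have hsl : (str (a + j)).length ≤ v + q := by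
      rw [str_length_log]
      have : Nat.log 2 (a + j + 1) < v + q + 1 := Nat.log_lt_of_lt_pow (by omega)
        (lt_of_le_of_lt (by omega : a + j + 1 ≤ a + l + 1) hal)
      omega
    have hpow : (str (a + j)).length ^ d ≤ (v + q) ^ d := Nat.pow_le_pow_left hsl _
    have e : A ∩ {z | z.length ≤ (str (a + j)).length + ((str (a + j)).length ^ (Phi i).d +
        (Phi i).d)} = X ∩ {z | z.length ≤ (str (a + j)).length +
          ((str (a + j)).length ^ (Phi i).d + (Phi i).d)} := by
      ext z
      simp only [Set.mem_inter_iff, Set.mem_ofPred_eq]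
      refine and_congr_left (fun hz => ⟨fun h => hlong z h ?_, fun h => Or.inl h⟩)
      rw [← hd] at hz
      omega
    rw [Set.mem_ofPred_eq, (Phi i).loc _ A, e, ← (Phi i).loc]
    constructor
    · rintro (h | ⟨j', -, h | ⟨h, h'⟩⟩)
      · have := hX _ h
        rw [List.length_cons, List.length_cons, List.length_replicate] at this
        omega
      · rw [List.cons.injEq] at h
        exact absurd h.2.symm (rep_ne _ _)
      · have h2 : a + j = a + j' := by simpa using congrArg List.length h
        rw [h2]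
        exact h'
    · intro h
      exact Or.inr ⟨j, hj, Or.inr ⟨rfl, h⟩⟩
  · have hc : cnt (low A) a ≤ N := by
      unfold cnt
      have h1 : (Finset.range a).filter (fun p => List.replicate p true ∈ low A) ⊆
          Finset.range N := by
        intro p hp
        rw [Finset.mem_filter, Finset.mem_range] at hp
        rw [Finset.mem_range]
        have h2 := hX _ (hlong _ hp.2 (by
          rw [List.length_cons, List.length_replicate]; omega))
        rw [List.length_cons, List.length_replicate] at h2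
        omega
      have := Finset.card_le_card h1
      rwa [Finset.card_range] at this
    rw [hl]
    exact Nat.mul_le_mul_left _ (by omega)

theorem wins_dense (i k : ℕ) : Dense {χ : List Bool → Bool | Wins i k (ofChar χ)} := by
  classical
  rw [dense_iff_inter_open]
  rintro V hV ⟨χ, hχ⟩
  rw [isOpen_pi_iff] at hV
  obtain ⟨I, u, hu, hsub⟩ := hV χ hχ
  set N := I.sup List.length + 1 with hN
  obtain ⟨A, hA1, hA2⟩ := extend i k N {z | z ∈ ofChar χ ∧ z.length < N} (fun z hz => hz.2)
  refine ⟨fun z => decide (z ∈ A), hsub ?_, ?_⟩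
  · intro z hz
    have h1 : z.length < N := by
      have := Finset.le_sup (f := List.length) (Finset.mem_coe.1 hz)
      omega
    have h2 : decide (z ∈ A) = χ z := by
      have h3 := hA1 z h1
      have h4 : z ∈ A ↔ χ z = true := by
        rw [h3]
        exact ⟨fun h => h.1, fun h => ⟨h, h1⟩⟩
      by_cases h5 : z ∈ A
      · rw [decide_eq_true h5, h4.1 h5]
      · rw [decide_eq_false h5]
        cases h6 : χ z with
        | false => rfl
        | true => exact absurd (h4.2 h6) h5
    change decide (z ∈ A) ∈ u z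
    rw [h2]
    exact (hu z (Finset.mem_coe.1 hz)).2
  · have h1 : ofChar (fun z => decide (z ∈ A)) = A := by
      ext z
      exact decide_eq_true_iff
    change Wins i k (ofChar (fun z => decide (z ∈ A)))
    rw [h1]
    exact hA2

/-- relative to a generic oracle -/
theorem generic : {χ : List Bool → Bool |
    Null poly (ofChar χ) {L | InNP (ofChar χ) L ∨ InPSPACE (ofChar χ) L} ∧
    DimZero (ofChar χ) {L | InNP (ofChar χ) L ∨ InPSPACE (ofChar χ) L}} ∈
      residual (List Bool → Bool) := by
  have h : (⋂ p : ℕ × ℕ, {χ : List Bool → Bool | Wins p.1 p.2 (ofChar χ)}) ∈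
      residual (List Bool → Bool) := by
    rw [countable_iInter_mem]
    intro p
    exact residual_of_dense_open (wins_open _ _) (wins_dense _ _)
  refine mem_of_superset h (fun χ hχ => ?_)
  rw [Set.mem_iInter] at hχ
  exact ⟨null_of_wins (fun i k => hχ (i, k)), dim_of_wins (fun i k => hχ (i, k))⟩

end Pool.Agent.TH755.PM
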