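import Pool.Agent.TH755.PM.Gen
import Pool.Agent.H552R2.RM.F_UP

/-!
The oracle of the hidden strings, together with sets from a countable family.
-/

namespace Pool.Agent.TH755.PM

open Function MeasureTheory Filter
open Pool.Agent.Helper556.OM Pool.Agent.H552R2 Pool.Agent.H552R2.RM

/-- the codes of the hidden strings (without the first bit) -/
def hid (ω : Om) : Set (List Bool) := {u | true :: u ∈ orc true ∅ ω}

theorem join_hid (T : Set (List Bool)) (ω : Om) : join T (hid ω) = orc true T ω := by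
  ext z
  unfold join hid orc
  simp only [Set.mem_ofPred_eq]
  refine or_congr Iff.rfl ?_
  constructor
  · rintro ⟨u, ⟨v, hv, -⟩ | ⟨e, x, h1, h2⟩, rfl⟩
    · exact absurd hv (Set.notMem_empty v)
    · exact ⟨e, x, h1, h2⟩
  · rintro ⟨e, x, h1, h2⟩
    exact ⟨hs e x ω ++ base e x, Or.inr ⟨e, x, rfl, h2⟩, h1⟩

theorem null_mono {cls : ℕ → ℕ → ℕ} {A : Set (List Bool)} {X Y : Set (Set (List Bool))}
    (h : Null cls A Y) (hXY : X ⊆ Y) : Null cls A X := by
  obtain ⟨d, f, c, h1, h2, h3, h4, h5, h6⟩ := h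
  exact ⟨d, f, c, h1, h2, h3, h4, h5, fun k L hL => h6 k L (hXY hL)⟩

theorem poly_le_quasi (c n : ℕ) : poly c n ≤ quasi (2 * c + 1) n := by
  unfold poly quasi
  set s := Nat.size n with hs
  have h1 : n < 2 ^ s := Nat.lt_size_self n
  have h2 : n ^ c ≤ 2 ^ (s * c) := by
    rw [pow_mul]
    exact Nat.pow_le_pow_left h1.le c
  have h3 : s * c ≤ s ^ (2 * c + 1) + c := by
    rcases Nat.lt_or_ge s 2 with h | h
    · interval_cases s
      · omega
      · simp
    · have h4 : c ≤ s ^ (2 * c) := by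
        have e1 : 2 * c < 2 ^ (2 * c) := Nat.lt_two_pow_self
        have e2 : 2 ^ (2 * c) ≤ s ^ (2 * c) := Nat.pow_le_pow_left h _
        omega
      have h5 : s * c ≤ s * s ^ (2 * c) := Nat.mul_le_mul_left s h4
      have h6 : s ^ (2 * c + 1) = s * s ^ (2 * c) := by rw [pow_succ, mul_comm]
      omega
  have h4 : c + 1 ≤ 2 ^ c := Nat.lt_two_pow_self
  have h5 : 1 ≤ 2 ^ (s * c) := Nat.one_le_two_pow
  calc n ^ c + c ≤ 2 ^ (s * c) + 2 ^ (s * c) * c :=
        Nat.add_le_add h2 (Nat.le_mul_of_pos_left _ h5)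
    _ = 2 ^ (s * c) * (c + 1) := by ring
    _ ≤ 2 ^ (s * c) * 2 ^ c := Nat.mul_le_mul_left _ h4
    _ = 2 ^ (s * c + c) := by rw [pow_add]
    _ ≤ 2 ^ (s ^ (2 * c + 1) + (2 * c + 1)) := Nat.pow_le_pow_right (by norm_num) (by omega)

theorem null_quasi {A : Set (List Bool)} {X : Set (Set (List Bool))} (h : Null poly A X) :
    Null quasi A X := by
  obtain ⟨d, f, c, ⟨M, hM, h1⟩, h2, h3, h4, h5, h6⟩ := h
  refine ⟨d, f, 2 * c + 1, ⟨M, hM, fun k r w v => ?_⟩, h2, h3, h4, h5, h6⟩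
  obtain ⟨h7, h8⟩ := h1 k r w v
  have h9 := run_mono M v (M.init (enc k r w)) (poly_le_quasi c (enc k r w).length) h7
  rw [h9]
  exact ⟨h7, h8⟩

theorem up_np {A L : Set (List Bool)} (h : InUP A L) : InNP A L := by
  obtain ⟨M, d, h⟩ := h
  exact ⟨M, d, fun x => ⟨(h x).1, (h x).2.1⟩⟩

/-- relative to the hidden strings and any set of a countable family -/
theorem exists_hidden (C : Set (Set (List Bool))) (hC : C.Countable) : ∃ H : Set (List Bool),
    ∀ T ∈ C, ¬ Null quasi (join T H)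
      {L | InUP (join T H) L ∧ InUP (join T H) Lᶜ ∧ InE2 (join T H) L} := by
  have h : ∀ᵐ ω ∂mu, ∀ T ∈ C, ¬ Null quasi (orc true T ω) {L | ∃ e, 2 ≤ e ∧ L = Lang e ω} := by
    rw [ae_ball_iff hC]
    intro T _
    exact not_null true T
  obtain ⟨ω, hω⟩ := h.exists
  refine ⟨hid ω, fun T hT hn => hω T hT ?_⟩
  rw [join_hid] at hn
  refine null_mono hn ?_
  rintro L ⟨e, -, rfl⟩
  exact ⟨lang_UP _ _ _ _, lang_coUP _ _ _, lang_E2 _ _ _ _⟩

end Pool.Agent.TH755.PM
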