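import Pool.Agent.TH755.PM.Defs
import Pool.Agent.H552R2.RM.F_MA
import Pool.Agent.H552R2.RM.F_E2

/-!
The program computing the null cover.
-/

namespace Pool.Agent.TH755.PM

open Function MeasureTheory
open Pool.Agent.Helper556.OM Pool.Agent.H552R2 Pool.Agent.H552R2.RM

variable {A : Set (List Bool)}

/-- reading the ones of the number `k` -/
def parse1 : Cmd := .loop 3 (.br 0 (.pop 3) (.seq (.pop 0) (.pop 3)) (.seq (.pop 0) (.push 2 true)))

theorem parse1_ev (x a1 a4 : List Bool) : ∀ (k n : ℕ),
    EvB A parse1 (ma_st (List.replicate k true ++ false :: x) a1 (un n) [true] a4)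
      (ma_st x a1 (un (n + k)) [] a4) (4 * k + 5) := by
  intro k
  induction k with
  | zero =>
      intro n
      have p1 := EvB.pop (A := A) 0 (ma_st (false :: x) a1 (un n) [true] a4)
      rw [ma_st0, ma_up0, List.tail_cons] at p1
      have p2 := EvB.pop (A := A) 3 (ma_st x a1 (un n) [true] a4)
      rw [ma_st3, ma_up3, List.tail_cons] at p2
      have p3 := EvB.brf (A := A) (r := 0) (pn := .pop 3) (pt := .seq (.pop 0) (.push 2 true))
        (s := ma_st (false :: x) a1 (un n) [true] a4) (l := x) rfl (p1.seq p2)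
      have p4 := e2_loopc (r := 3) (by rw [ma_st3]; simp) p3 (e2_loopn (by rfl))
      exact p4.mono (by omega)
  | succ k ih =>
      intro n
      have p1 := EvB.pop (A := A) 0 (ma_st (true :: (List.replicate k true ++ false :: x)) a1 (un n)
        [true] a4)
      rw [ma_st0, ma_up0, List.tail_cons] at p1
      have p2 := EvB.push (A := A) 2 true (ma_st (List.replicate k true ++ false :: x) a1 (un n)
        [true] a4)
      rw [ma_st2, ma_up2, un_cons] at p2
      have p3 := EvB.brt (A := A) (r := 0) (pn := .pop 3) (pf := .seq (.pop 0) (.pop 3))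
        (s := ma_st (true :: (List.replicate k true ++ false :: x)) a1 (un n) [true] a4)
        (l := List.replicate k true ++ false :: x) rfl (p1.seq p2)
      have p4 := e2_loopc (r := 3) (by rw [ma_st3]; simp) p3 (ih (n + 1))
      rw [show n + 1 + k = n + (k + 1) by omega] at p4
      exact p4.mono (by omega)

/-- removing the ones of the number `r` -/
def parse2 : Cmd := .loop 3 (.br 0 (.pop 3) (.seq (.pop 0) (.pop 3)) (.pop 0))

theorem parse2_ev (x a1 a2 a4 : List Bool) : ∀ (k : ℕ),
    EvB A parse2 (ma_st (List.replicate k true ++ false :: x) a1 a2 [true] a4)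
      (ma_st x a1 a2 [] a4) (3 * k + 5) := by
  intro k
  induction k with
  | zero =>
      have p1 := EvB.pop (A := A) 0 (ma_st (false :: x) a1 a2 [true] a4)
      rw [ma_st0, ma_up0, List.tail_cons] at p1
      have p2 := EvB.pop (A := A) 3 (ma_st x a1 a2 [true] a4)
      rw [ma_st3, ma_up3, List.tail_cons] at p2
      have p3 := EvB.brf (A := A) (r := 0) (pn := .pop 3) (pt := .pop 0)
        (s := ma_st (false :: x) a1 a2 [true] a4) (l := x) rfl (p1.seq p2)
      have p4 := e2_loopc (r := 3) (by rw [ma_st3]; simp) p3 (e2_loopn (by rfl))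
      exact p4.mono (by omega)
  | succ k ih =>
      have p1 := EvB.pop (A := A) 0 (ma_st (true :: (List.replicate k true ++ false :: x)) a1 a2
        [true] a4)
      rw [ma_st0, ma_up0, List.tail_cons] at p1
      have p3 := EvB.brt (A := A) (r := 0) (pn := .pop 3) (pf := .seq (.pop 0) (.pop 3))
        (s := ma_st (true :: (List.replicate k true ++ false :: x)) a1 a2 [true] a4)
        (l := List.replicate k true ++ false :: x) rfl p1
      have p4 := e2_loopc (r := 3) (by rw [ma_st3]; simp) p3 ih
      exact p4.mono (by omega)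

/-- the stack holding the number of correct predictions -/
def zs (m : ℕ) : List Bool := List.replicate m false ++ [true]

/-- the stacks in the state `s`, if the bits `w` are still to be read -/
def cfg (w : List Bool) (s : Sta) : St := ma_st w (zs s.m) (un s.e) [] (false :: un s.p)

/-- a correct prediction -/
def cMat : Cmd := .seq (.pop 0) (.push 1 false)

/-- a wrong prediction -/
def cMis : Cmd := .seq (.pop 0) (.seq (clear 1) (.seq (.push 1 true) (.seq (.push 2 true)
  (.push 2 true))))

theorem cMat_ev (b : Bool) (w a4 : List Bool) (e m : ℕ) :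
    EvB A cMat (ma_st (b :: w) (zs m) (un e) [] a4) (ma_st w (zs (m + 1)) (un e) [] a4) 2 := by
  have p1 := EvB.pop (A := A) 0 (ma_st (b :: w) (zs m) (un e) [] a4)
  rw [ma_st0, ma_up0, List.tail_cons] at p1
  have p2 := EvB.push (A := A) 1 false (ma_st w (zs m) (un e) [] a4)
  rw [ma_st1, ma_up1] at p2
  have e1 : false :: zs m = zs (m + 1) := rfl
  rw [e1] at p2
  exact p1.seq p2

theorem cMis_ev (b : Bool) (w a4 : List Bool) (e m : ℕ) :
    EvB A cMis (ma_st (b :: w) (zs m) (un e) [] a4) (ma_st w (zs 0) (un (e + 2)) [] a4)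
      (2 * m + 7) := by
  have p1 := EvB.pop (A := A) 0 (ma_st (b :: w) (zs m) (un e) [] a4)
  rw [ma_st0, ma_up0, List.tail_cons] at p1
  have p2 := clear_ev (A := A) 1 (ma_st w (zs m) (un e) [] a4)
  rw [ma_st1, ma_up1] at p2
  have hl : (zs m).length = m + 1 := by simp [zs]
  rw [hl] at p2
  have p3 := EvB.push (A := A) 1 true (ma_st w [] (un e) [] a4)
  rw [ma_st1, ma_up1] at p3
  have e1 : [true] = zs 0 := rfl
  rw [e1] at p3
  have p4 := EvB.push (A := A) 2 true (ma_st w (zs 0) (un e) [] a4)
  rw [ma_st2, ma_up2, un_cons] at p4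
  have p5 := EvB.push (A := A) 2 true (ma_st w (zs 0) (un (e + 1)) [] a4)
  rw [ma_st2, ma_up2, un_cons] at p5
  exact (p1.seq (p2.seq (p3.seq (p4.seq p5)))).mono (by omega)

/-- making a bet -/
def cBet : Cmd := .seq (.push 4 false) (.seq (.ask 4 (.br 0 .skip cMis cMat)
  (.br 0 .skip cMat cMis)) (.pop 4))

/-- going to the next position -/
def cAdv : Cmd := .seq (.pop 4) (.seq (.push 4 true) (.push 4 false))

/-- reading a bit -/
def cBody : Cmd := .seq (.ask 4 cBet (.pop 0)) cAdv

theorem cAdv_ev (w a1 a2 : List Bool) (p : ℕ) :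
    EvB A cAdv (ma_st w a1 a2 [] (false :: un p)) (ma_st w a1 a2 [] (false :: un (p + 1))) 3 := by
  have p1 := EvB.pop (A := A) 4 (ma_st w a1 a2 [] (false :: un p))
  rw [ma_st4, ma_up4, List.tail_cons] at p1
  have p2 := EvB.push (A := A) 4 true (ma_st w a1 a2 [] (un p))
  rw [ma_st4, ma_up4, un_cons] at p2
  have p3 := EvB.push (A := A) 4 false (ma_st w a1 a2 [] (un (p + 1)))
  rw [ma_st4, ma_up4] at p3
  exact p1.seq (p2.seq p3)

variable {T : Set (List Bool)}

theorem cBody_ev (hT : ∀ u, false :: u ∈ A ↔ u ∈ T) (b : Bool) (w : List Bool) (s : Sta) :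
    EvB A cBody (cfg (b :: w) s) (cfg w (stp T s b)) (2 * s.m + 15) := by
  classical
  obtain ⟨p, e, m⟩ := s
  have hq1 : false :: un p ∈ A ↔ List.replicate p true ∈ T := hT _
  have hq2 : false :: false :: un p ∈ A ↔ false :: List.replicate p true ∈ T := hT _
  unfold cfg
  simp only
  by_cases h1 : List.replicate p true ∈ T
  · have q1 := EvB.push (A := A) 4 false (ma_st (b :: w) (zs m) (un e) [] (false :: un p))
    rw [ma_st4, ma_up4] at q1
    by_cases h2 : (false :: List.replicate p true ∈ T ↔ b = true)
    · have hs : stp T ⟨p, e, m⟩ b = ⟨p + 1, e, m + 1⟩ := by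
        unfold stp
        rw [if_pos h1, if_pos h2]
      rw [hs]
      have q2 := cMat_ev (A := A) b w (false :: false :: un p) e m
      have q3 : EvB A (.ask 4 (.br 0 .skip cMis cMat) (.br 0 .skip cMat cMis))
          (ma_st (b :: w) (zs m) (un e) [] (false :: false :: un p))
          (ma_st w (zs (m + 1)) (un e) [] (false :: false :: un p)) 4 := by
        cases b with
        | true =>
            have h3 : false :: false :: un p ∈ A := hq2.2 (h2.2 rfl)
            exact e2_askt (r := 4) (by rw [ma_st4]; exact h3)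
              (EvB.brt (r := 0) (l := w) rfl q2)
        | false =>
            have h3 : false :: false :: un p ∉ A := fun h => by
              have := h2.1 (hq2.1 h)
              exact Bool.false_ne_true this
            exact e2_askf (r := 4) (by rw [ma_st4]; exact h3)
              (EvB.brf (r := 0) (l := w) rfl q2)
      have q4 := EvB.pop (A := A) 4 (ma_st w (zs (m + 1)) (un e) [] (false :: false :: un p))
      rw [ma_st4, ma_up4, List.tail_cons] at q4
      have q5 := e2_askt (r := 4) (pf := .pop 0)
        (s := ma_st (b :: w) (zs m) (un e) [] (false :: un p))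
        (by rw [ma_st4]; exact hq1.2 h1) (q1.seq (q3.seq q4))
      exact (q5.seq (cAdv_ev w (zs (m + 1)) (un e) p)).mono (by omega)
    · have hs : stp T ⟨p, e, m⟩ b = ⟨p + 1, e + 2, 0⟩ := by
        unfold stp
        rw [if_pos h1, if_neg h2]
      rw [hs]
      have q2 := cMis_ev (A := A) b w (false :: false :: un p) e m
      have q3 : EvB A (.ask 4 (.br 0 .skip cMis cMat) (.br 0 .skip cMat cMis))
          (ma_st (b :: w) (zs m) (un e) [] (false :: false :: un p))
          (ma_st w (zs 0) (un (e + 2)) [] (false :: false :: un p)) (2 * m + 9) := by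
        cases b with
        | true =>
            have h3 : false :: false :: un p ∉ A := fun h => h2 ⟨fun _ => rfl, fun _ => hq2.1 h⟩
            exact e2_askf (r := 4) (by rw [ma_st4]; exact h3)
              (EvB.brt (r := 0) (l := w) rfl q2)
        | false =>
            have h3 : false :: false :: un p ∈ A := by
              by_contra h
              exact h2 ⟨fun h' => absurd (hq2.2 h') h, fun h' => absurd h' Bool.false_ne_true⟩
            exact e2_askt (r := 4) (by rw [ma_st4]; exact h3)
              (EvB.brf (r := 0) (l := w) rfl q2)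
      have q4 := EvB.pop (A := A) 4 (ma_st w (zs 0) (un (e + 2)) [] (false :: false :: un p))
      rw [ma_st4, ma_up4, List.tail_cons] at q4
      have q5 := e2_askt (r := 4) (pf := .pop 0)
        (s := ma_st (b :: w) (zs m) (un e) [] (false :: un p))
        (by rw [ma_st4]; exact hq1.2 h1) (q1.seq (q3.seq q4))
      exact (q5.seq (cAdv_ev w (zs 0) (un (e + 2)) p)).mono (by omega)
  · have hs : stp T ⟨p, e, m⟩ b = ⟨p + 1, e, m⟩ := by
      unfold stp
      rw [if_neg h1]
    rw [hs]
    have q1 := EvB.pop (A := A) 0 (ma_st (b :: w) (zs m) (un e) [] (false :: un p))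
    rw [ma_st0, ma_up0, List.tail_cons] at q1
    have q5 := e2_askf (r := 4) (pt := cBet)
      (s := ma_st (b :: w) (zs m) (un e) [] (false :: un p))
      (by rw [ma_st4]; exact fun h => h1 (hq1.1 h)) q1
    exact (q5.seq (cAdv_ev w (zs m) (un e) p)).mono (by omega)

theorem stp_m (s : Sta) (b : Bool) : (stp T s b).m ≤ s.m + 1 := by
  classical
  unfold stp
  split_ifs <;> simp

theorem stp_e (s : Sta) (b : Bool) : (stp T s b).e ≤ s.e + 2 := by
  classical
  unfold stp
  split_ifs <;> simp

theorem loop_ev (hT : ∀ u, false :: u ∈ A ↔ u ∈ T) (N : ℕ) : ∀ (w : List Bool) (s : Sta),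
    s.m + w.length ≤ N →
    EvB A (.loop 0 cBody) (cfg w s) (cfg [] (w.foldl (stp T) s)) (w.length * (2 * N + 20) + 1) := by
  intro w
  induction w with
  | nil =>
      intro s _
      exact (e2_loopn (by rfl)).mono (by simp)
  | cons b w ih =>
      intro s hs
      rw [List.length_cons] at hs
      have h1 := cBody_ev (A := A) hT b w s
      have h2 := ih (stp T s b) (by have := stp_m (T := T) s b; omega)
      have h3 := e2_loopc (r := 0) (by unfold cfg; rw [ma_st0]; simp) h1 h2
      rw [List.foldl_cons]
      refine h3.mono ?_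
      rw [List.length_cons, add_mul, one_mul]
      omega

/-- writing the result -/
def cOut : Cmd := .seq (.push 1 true) (.seq (.push 1 false) (.seq (.loop 2 (.seq (.pop 2)
  (.push 1 true))) (.push 1 false)))

theorem cOut_loop (y a4 : List Bool) : ∀ (e n : ℕ),
    EvB A (.loop 2 (.seq (.pop 2) (.push 1 true))) (ma_st [] (un n ++ y) (un e) [] a4)
      (ma_st [] (un (n + e) ++ y) [] [] a4) (3 * e + 1) := by
  intro e
  induction e with
  | zero =>
      intro n
      exact (e2_loopn (by rfl)).mono (by omega)
  | succ e ih =>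
      intro n
      have p1 := EvB.pop (A := A) 2 (ma_st [] (un n ++ y) (un (e + 1)) [] a4)
      rw [ma_st2, ma_up2, un_succ, List.tail_cons, ← un_succ] at p1
      have p2 := EvB.push (A := A) 1 true (ma_st [] (un n ++ y) (un e) [] a4)
      rw [ma_st1, ma_up1] at p2
      have e1 : true :: (un n ++ y) = un (n + 1) ++ y := rfl
      rw [e1] at p2
      have p3 := e2_loopc (r := 2) (by rw [ma_st2]; exact un_ne (by omega)) (p1.seq p2) (ih (n + 1))
      rw [show n + 1 + e = n + (e + 1) by omega] at p3
      exact p3.mono (by omega)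

/-- the result -/
def outp (s : Sta) : List Bool :=
  false :: (List.replicate s.e true ++ false :: true :: zs s.m)

theorem cOut_ev (s : Sta) : ∃ s' : St, EvB A cOut (cfg [] s) s' (3 * s.e + 4) ∧
    s' 1 = outp s := by
  have p1 := EvB.push (A := A) 1 true (ma_st [] (zs s.m) (un s.e) [] (false :: un s.p))
  rw [ma_st1, ma_up1] at p1
  have p2 := EvB.push (A := A) 1 false (ma_st [] (true :: zs s.m) (un s.e) [] (false :: un s.p))
  rw [ma_st1, ma_up1] at p2
  have p3 := cOut_loop (A := A) (false :: true :: zs s.m) (false :: un s.p) s.e 0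
  rw [un_zero, List.nil_append, Nat.zero_add] at p3
  have p4 := EvB.push (A := A) 1 false (ma_st [] (un s.e ++ false :: true :: zs s.m) [] []
    (false :: un s.p))
  rw [ma_st1, ma_up1] at p4
  exact ⟨_, (p1.seq (p2.seq (p3.seq p4))).mono (by omega), rfl⟩

/-- the program -/
def prog : Cmd :=
  .seq (.push 2 true) (.seq (.push 2 true) (.seq (.push 3 true) (.seq parse1 (.seq (.push 3 true)
    (.seq parse2 (.seq (.push 1 true) (.seq (.push 4 false) (.seq (.loop 0 cBody) cOut))))))))

theorem fold_e (w : List Bool) : ∀ s : Sta, (w.foldl (stp T) s).e ≤ s.e + 2 * w.length := by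
  induction w with
  | nil => intro s; simp
  | cons b w ih =>
      intro s
      rw [List.foldl_cons, List.length_cons]
      have h1 := ih (stp T s b)
      have h2 := stp_e (T := T) s b
      omega

theorem prog_ev (hT : ∀ u, false :: u ∈ A ↔ u ∈ T) (k r : ℕ) (w : List Bool) :
    ∃ s' : St, EvB A prog (ma_st (enc k r w) [] [] [] []) s'
      (w.length * (2 * w.length + 20) + 7 * k + 3 * r + 6 * w.length + 30) ∧
    s' 1 = outp (sta T k w) := by
  obtain ⟨s', h10, hs'⟩ := cOut_ev (A := A) (sta T k w)
  refine ⟨s', ?_, hs'⟩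
  have h1 := EvB.push (A := A) 2 true (ma_st (enc k r w) [] [] [] [])
  rw [ma_st2, ma_up2] at h1
  have h2 := EvB.push (A := A) 2 true (ma_st (enc k r w) [] [true] [] [])
  rw [ma_st2, ma_up2] at h2
  have e1 : [true, true] = un 2 := rfl
  rw [e1] at h2
  have h3 := EvB.push (A := A) 3 true (ma_st (enc k r w) [] (un 2) [] [])
  rw [ma_st3, ma_up3] at h3
  have h4 := parse1_ev (A := A) (List.replicate r true ++ false :: w) [] [] k 2
  have h5 := EvB.push (A := A) 3 true (ma_st (List.replicate r true ++ false :: w) []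
    (un (2 + k)) [] [])
  rw [ma_st3, ma_up3] at h5
  have h6 := parse2_ev (A := A) w [] (un (2 + k)) [] r
  have h7 := EvB.push (A := A) 1 true (ma_st w [] (un (2 + k)) [] [])
  rw [ma_st1, ma_up1] at h7
  have h8 := EvB.push (A := A) 4 false (ma_st w [true] (un (2 + k)) [] [])
  rw [ma_st4, ma_up4] at h8
  have h9 := loop_ev (A := A) hT w.length w ⟨0, k + 2, 0⟩ (by simp)
  have e2 : cfg w ⟨0, k + 2, 0⟩ = ma_st w [true] (un (2 + k)) [] [false] := by
    unfold cfg
    rw [Nat.add_comm k 2]
    rfl
  rw [e2] at h9
  have he : (sta T k w).e ≤ k + 2 + 2 * w.length := fold_e w _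
  have h := h1.seq (h2.seq (h3.seq (h4.seq (h5.seq (h6.seq (h7.seq (h8.seq (h9.seq h10))))))))
  exact h.mono (by omega)

theorem natOf_zs (m : ℕ) : natOf (true :: zs m) = 2 ^ (m + 1) + 1 := by
  have h : ∀ (m c : ℕ), (zs m).foldl (fun a b => 2 * a + (if b then 1 else 0)) c =
      c * 2 ^ (m + 1) + 1 := by
    intro m
    induction m with
    | zero =>
        intro c
        simp only [zs, List.replicate_zero, List.nil_append, List.foldl_cons, List.foldl_nil,
          if_true, zero_add, pow_one]
        ring
    | succ m ih =>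
        intro c
        have e1 : zs (m + 1) = false :: zs m := rfl
        rw [e1, List.foldl_cons, ih]
        simp only [Bool.false_eq_true, if_false, add_zero, pow_succ]
        ring
  unfold natOf
  rw [List.foldl_cons, h]
  simp

theorem dy_outp (s : Sta) : dy (outp s) = val s := by
  unfold outp val
  simp only [dy]
  rw [dy_drop, dy_take, List.tail_cons, natOf_zs, List.length_replicate]
  push_cast
  simp

theorem time_le (k r l n : ℕ) (hn : n = k + r + l + 2) :
    l * (2 * l + 20) + 7 * k + 3 * r + 6 * l + 30 + 1 ≤ poly 40 n := by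
  unfold poly
  have h2 : 2 ≤ n := by omega
  have h1 : l * (2 * l + 20) + 7 * k + 3 * r + 6 * l + 30 + 1 ≤ 60 * n ^ 2 := by
    have hl : l ≤ n := by omega
    have hk : k ≤ n := by omega
    have hr : r ≤ n := by omega
    nlinarith [Nat.mul_le_mul hl hl, Nat.mul_le_mul h2 h2, Nat.mul_le_mul hl h2,
      Nat.mul_le_mul hk h2, Nat.mul_le_mul hr h2]
  have h3 : 60 * n ^ 2 ≤ n ^ 40 := by
    have h4 : 2 ^ 38 ≤ n ^ 38 := Nat.pow_le_pow_left h2 38
    have h5 : n ^ 40 = n ^ 38 * n ^ 2 := by rw [← pow_add]
    rw [h5]
    exact Nat.mul_le_mul_right _ (le_trans (by norm_num) h4)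
  omega

theorem pi_enc_length' (k r : ℕ) (w : List Bool) : (enc k r w).length = k + r + w.length + 2 := by
  simp only [enc, List.length_append, List.length_replicate, List.length_cons]
  omega

/-- the values are computed in polynomial time -/
theorem comp_val (hT : ∀ u, false :: u ∈ A ↔ u ∈ T) :
    Comp A (poly 40) (fun k _ w => val (sta T k w)) := by
  refine ⟨decM prog 4, decM_det _ _, ?_⟩
  intro k r w v
  obtain ⟨s', ⟨t, ht, hev⟩, hs'⟩ := prog_ev (A := A) hT k r w
  have e0 : ma_st (enc k r w) [] [] [] [] = (fun j => if j = 0 then enc k r w else []) := by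
    funext j
    simp only [ma_st]
    split_ifs <;> rfl
  rw [e0] at hev
  have hlen := pi_enc_length' k r w
  have h := ma_run (A := A) prog 4 hev (T := poly 40 (enc k r w).length)
    (by have := time_le k r w.length _ hlen; omega) v
  refine ⟨h.1, ?_⟩
  rw [h.2, hs', dy_outp]

end Pool.Agent.TH755.PM
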