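import Pool.Agent.TH755.PM.Dens

/-!
The construction of a sparse set.
-/

namespace Pool.Agent.TH755.PM

open Function MeasureTheory Filter
open Pool.Agent.Helper556.OM Pool.Agent.H552R2 Pool.Agent.H552R2.RM

/-- the number of bets before stage `s` -/
def tot : ℕ → ℕ
  | 0 => 0
  | s + 1 => tot s + (s + 1 + 2 * tot s)

/-- the number of bets in stage `s` -/
def len (s : ℕ) : ℕ := s + 1 + 2 * tot s

theorem tot_succ (s : ℕ) : tot (s + 1) = tot s + len s := rfl

theorem tot_mono {s t : ℕ} (h : s ≤ t) : tot s ≤ tot t := by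
  induction t, h using Nat.le_induction with
  | base => exact le_rfl
  | succ t _ ih => exact ih.trans (by rw [tot_succ]; omega)

/-- the new strings of stage `s`, if the strings before are `X` and the position is `a` -/
def new (O : Set (List Bool)) (a : ℕ → ℕ) (s : ℕ) (X : Set (List Bool)) : Set (List Bool) :=
  {z | ∃ j < len s, z = List.replicate (a s + j) true ∨
    (z = false :: List.replicate (a s + j) true ∧
      (Phi (Nat.unpair s).1).F (str (a s + j)) (join X O))}

/-- the strings before stage `s` -/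
def TT (O : Set (List Bool)) (a : ℕ → ℕ) : ℕ → Set (List Bool)
  | 0 => ∅
  | s + 1 => TT O a s ∪ new O a s (TT O a s)

/-- the set -/
def TS (O : Set (List Bool)) (a : ℕ → ℕ) : Set (List Bool) :=
  {z | ∃ s, z ∈ new O a s (TT O a s)}

section

variable (O : Set (List Bool)) (a : ℕ → ℕ)

theorem TT_mono {s t : ℕ} (h : s ≤ t) : TT O a s ⊆ TT O a t := by
  induction t, h using Nat.le_induction with
  | base => exact subset_rfl
  | succ t _ ih => exact ih.trans Set.subset_union_left

theorem TT_sub (s : ℕ) : TT O a s ⊆ TS O a := by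
  induction s with
  | zero => exact Set.empty_subset _
  | succ s ih => exact Set.union_subset ih (fun z hz => ⟨s, hz⟩)

theorem new_len {s : ℕ} {X : Set (List Bool)} {z : List Bool} (h : z ∈ new O a s X) :
    a s ≤ z.length := by
  obtain ⟨j, -, h | ⟨h, -⟩⟩ := h
  · rw [h, List.length_replicate]
    omega
  · rw [h, List.length_cons, List.length_replicate]
    omega

theorem TS_short (ha : StrictMono a) {s : ℕ} {z : List Bool} (hz : z ∈ TS O a)
    (hl : z.length < a s) : z ∈ TT O a s := by
  obtain ⟨t, ht⟩ := hz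
  have h1 := new_len O a ht
  have h2 : t < s := by
    by_contra h
    have := ha.monotone (not_lt.1 h)
    omega
  exact TT_mono O a h2 (Or.inr ht)

theorem TT_finite (s : ℕ) : (TT O a s).Finite ∧ (TT O a s).ncard ≤ 2 * tot s := by
  classical
  induction s with
  | zero => exact ⟨Set.finite_empty, by simp [TT]⟩
  | succ s ih =>
      set F : Finset (List Bool) :=
        (Finset.range (len s)).image (fun j => List.replicate (a s + j) true) ∪
        (Finset.range (len s)).image (fun j => false :: List.replicate (a s + j) true) with hF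
      have h1 : new O a s (TT O a s) ⊆ (F : Set (List Bool)) := by
        rintro z ⟨j, hj, h⟩
        rw [Finset.mem_coe, hF, Finset.mem_union, Finset.mem_image, Finset.mem_image]
        rcases h with h | ⟨h, -⟩
        · exact Or.inl ⟨j, Finset.mem_range.2 hj, h.symm⟩
        · exact Or.inr ⟨j, Finset.mem_range.2 hj, h.symm⟩
      have h2 : F.card ≤ 2 * len s := by
        refine (Finset.card_union_le _ _).trans ?_
        have e1 := Finset.card_image_le (s := Finset.range (len s))
          (f := fun j => List.replicate (a s + j) true)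
        have e2 := Finset.card_image_le (s := Finset.range (len s))
          (f := fun j => false :: List.replicate (a s + j) true)
        rw [Finset.card_range] at e1 e2
        omega
      have h3 : (new O a s (TT O a s)).ncard ≤ 2 * len s := by
        refine (Set.ncard_le_ncard h1 (Finset.finite_toSet F)).trans ?_
        rw [Set.ncard_coe_finset]
        exact h2
      refine ⟨ih.1.union ((Finset.finite_toSet F).subset h1), ?_⟩
      refine (Set.ncard_union_le _ _).trans ?_
      rw [tot_succ]
      have := ih.2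
      omega

/-- the conditions on the positions -/
structure Pos (ν : ℕ → ℕ) : Prop where
  mono : StrictMono ν
  eq : ∀ s, a s = 2 ^ ν s - 1
  len : ∀ s, len s ≤ 2 ^ ν s
  loc : ∀ s, ν s + (ν s ^ (Phi (Nat.unpair s).1).d + (Phi (Nat.unpair s).1).d) ≤ a s

variable {O a} {ν : ℕ → ℕ}

theorem Pos.next (h : Pos a ν) (s : ℕ) : a s + PM.len s ≤ a (s + 1) := by
  have h1 := h.len s
  have h2 := h.mono (Nat.lt_succ_self s)
  rw [h.eq, h.eq]
  have h3 : 2 ^ (ν s + 1) ≤ 2 ^ ν (s + 1) := Nat.pow_le_pow_right (by norm_num) h2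
  rw [pow_succ] at h3
  have h4 : 1 ≤ 2 ^ ν s := Nat.one_le_two_pow
  omega

theorem Pos.smono (h : Pos a ν) : StrictMono a := by
  refine strictMono_nat_of_lt_succ (fun s => ?_)
  have := h.next s
  have h2 : 1 ≤ PM.len s := by unfold PM.len; omega
  omega

theorem Pos.far (h : Pos a ν) {s t : ℕ} (hst : s < t) : a s + PM.len s ≤ a t :=
  (h.next s).trans (h.smono.monotone hst)

theorem Pos.uniq (h : Pos a ν) {s t j j' : ℕ} (hj : j < PM.len s) (hj' : j' < PM.len t)
    (he : a s + j = a t + j') : s = t := by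
  rcases lt_trichotomy s t with hst | hst | hst
  · have := h.far hst
    omega
  · exact hst
  · have := h.far hst
    omega

theorem rep_ne (p q : ℕ) : List.replicate p true ≠ false :: List.replicate q true := by
  intro h
  have : false ∈ List.replicate p true := by rw [h]; simp
  have := List.eq_of_mem_replicate this
  exact absurd this (by decide)

theorem mem_TS_one (p : ℕ) : List.replicate p true ∈ TS O a ↔
    ∃ s, ∃ j < len s, p = a s + j := by
  constructor
  · rintro ⟨s, j, hj, h | ⟨h, -⟩⟩
    · exact ⟨s, j, hj, by simpa using congrArg List.length h⟩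
    · exact absurd h (rep_ne _ _)
  · rintro ⟨s, j, hj, rfl⟩
    exact ⟨s, j, hj, Or.inl rfl⟩

theorem mem_TS_two (h : Pos a ν) {s j : ℕ} (hj : j < PM.len s) :
    false :: List.replicate (a s + j) true ∈ TS O a ↔
      (Phi (Nat.unpair s).1).F (str (a s + j)) (join (TT O a s) O) := by
  constructor
  · rintro ⟨t, j', hj', h1 | ⟨h1, h2⟩⟩
    · exact absurd h1.symm (rep_ne _ _)
    · have h3 : a s + j = a t + j' := by simpa using congrArg List.length h1
      have h4 := h.uniq hj hj' h3
      subst h4
      have h5 : j = j' := by omega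
      subst h5
      exact h2
  · intro h1
    exact ⟨s, j, hj, Or.inr ⟨rfl, h1⟩⟩

theorem str_len (h : Pos a ν) {s j : ℕ} (hj : j < PM.len s) : (str (a s + j)).length = ν s := by
  have h1 := h.len s
  have h2 := h.eq s
  have h3 : 1 ≤ 2 ^ ν s := Nat.one_le_two_pow
  exact str_length (by omega) (by rw [pow_succ]; omega)

theorem local_eq (h : Pos a ν) (s : ℕ) (m : ℕ) (hm : m ≤ a s) :
    join (TT O a s) O ∩ {z | z.length ≤ m} = join (TS O a) O ∩ {z | z.length ≤ m} := by
  ext z
  simp only [Set.mem_inter_iff, Set.mem_ofPred_eq]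
  refine and_congr_left (fun hz => ?_)
  constructor
  · rintro (⟨u, hu, rfl⟩ | hu)
    · exact Or.inl ⟨u, TT_sub O a s hu, rfl⟩
    · exact Or.inr hu
  · rintro (⟨u, hu, rfl⟩ | hu)
    · rw [List.length_cons] at hz
      exact Or.inl ⟨u, TS_short O a h.smono hu (by omega), rfl⟩
    · exact Or.inr hu

theorem good_TS (h : Pos a ν) (s : ℕ) :
    Good (TS O a) {x | (Phi (Nat.unpair s).1).F x (join (TS O a) O)} (a s) (PM.len s) := by
  intro p hp1 hp2
  obtain ⟨j, rfl⟩ := Nat.exists_eq_add_of_le hp1
  have hj : j < PM.len s := by omega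
  refine ⟨(mem_TS_one _).2 ⟨s, j, hj, rfl⟩, ?_⟩
  rw [mem_TS_two h hj, Set.mem_ofPred_eq, (Phi (Nat.unpair s).1).loc,
    (Phi (Nat.unpair s).1).loc _ (join (TS O a) O), str_len h hj, local_eq h s _ (h.loc s)]

theorem cnt_TS (h : Pos a ν) (s : ℕ) : cnt (TS O a) (a s) ≤ tot s := by
  classical
  have h1 : ∀ s, ((Finset.range s).biUnion
      (fun t => (Finset.range (PM.len t)).image (fun j => a t + j))).card ≤ tot s := by
    intro s
    refine (Finset.card_biUnion_le).trans ?_
    induction s with
    | zero => simp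
    | succ s ih =>
        rw [Finset.sum_range_succ, tot_succ]
        have := Finset.card_image_le (s := Finset.range (PM.len s)) (f := fun j => a s + j)
        rw [Finset.card_range] at this
        omega
  refine le_trans (Finset.card_le_card ?_) (h1 s)
  intro p hp
  rw [Finset.mem_filter, Finset.mem_range, mem_TS_one] at hp
  obtain ⟨hp1, t, j, hj, rfl⟩ := hp
  rw [Finset.mem_biUnion]
  refine ⟨t, ?_, Finset.mem_image.2 ⟨j, Finset.mem_range.2 hj, rfl⟩⟩
  rw [Finset.mem_range]
  by_contra hts
  have := h.smono.monotone (not_lt.1 hts)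
  omega

theorem null_TS (h : Pos a ν) : Null poly (join (TS O a) O)
    {L | InNP (join (TS O a) O) L ∨ InPSPACE (join (TS O a) O) L} := by
  refine null_np_ps (fun i k => ?_)
  refine ⟨a (Nat.pair i k), PM.len (Nat.pair i k), ?_, ?_⟩
  · have h1 := good_TS (O := O) h (Nat.pair i k)
    rw [Nat.unpair_pair] at h1
    exact h1
  · have h1 := cnt_TS (O := O) h (Nat.pair i k)
    have h2 : k ≤ Nat.pair i k := Nat.right_le_pair i k
    unfold PM.len
    omega

end

theorem exists_pos (g : ℕ → ℕ) (hg : Tendsto g atTop atTop) : ∃ (a ν : ℕ → ℕ), Pos a ν ∧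
    ∀ s, ∀ n, a s ≤ n → 2 * tot (s + 1) ≤ g n := by
  have h2 : Tendsto (fun v : ℕ => 2 ^ v - 1) atTop atTop := by
    refine tendsto_atTop_mono (fun v => ?_) tendsto_id
    have : v < 2 ^ v := Nat.lt_two_pow_self
    simp only [id_eq]
    omega
  have key : ∀ s : ℕ, ∀ᶠ v in atTop, len s ≤ 2 ^ v ∧
      v + (v ^ (Phi (Nat.unpair s).1).d + (Phi (Nat.unpair s).1).d) ≤ 2 ^ v - 1 ∧
      ∀ n, 2 ^ v - 1 ≤ n → 2 * tot (s + 1) ≤ g n := by
    intro s
    set d := (Phi (Nat.unpair s).1).d with hd
    have e1 : ∀ᶠ v : ℕ in atTop, len s ≤ 2 ^ v := by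
      filter_upwards [eventually_ge_atTop (len s)] with v hv
      exact hv.trans Nat.lt_two_pow_self.le
    have e2 : ∀ᶠ v : ℕ in atTop, v + (v ^ d + d) ≤ 2 ^ v - 1 := by
      have h3 := (tendsto_pow_const_div_const_pow_of_one_lt (d + 2)
        (r := (2 : ℝ)) (by norm_num)).eventually_le_const (show (0 : ℝ) < 1 by norm_num)
      filter_upwards [h3, eventually_ge_atTop (d + 3)] with v h4 h5
      rw [div_le_one (by positivity)] at h4
      have h6 : v ^ (d + 2) ≤ 2 ^ v := by exact_mod_cast h4
      have h7 : 1 ≤ v ^ d := Nat.one_le_pow _ _ (by omega)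
      have h8 : v ^ (d + 2) = v ^ d * (v * v) := by rw [pow_add, pow_two]
      have h9 : v ^ d * (v * v) = v ^ d + v ^ d * (v * v - 1) := by
        have : 1 ≤ v * v := Nat.one_le_iff_ne_zero.2 (by
          intro h0
          rcases Nat.mul_eq_zero.1 h0 with h0 | h0 <;> omega)
        conv_lhs => rw [show v * v = 1 + (v * v - 1) by omega]
        ring
      have h10 : v * v - 1 ≤ v ^ d * (v * v - 1) := Nat.le_mul_of_pos_left _ h7
      have h11 : 3 * v ≤ v * v := Nat.mul_le_mul_right _ (by omega)
      omega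
    have e3 : ∀ᶠ v : ℕ in atTop, ∀ n, 2 ^ v - 1 ≤ n → 2 * tot (s + 1) ≤ g n := by
      obtain ⟨N, hN⟩ := eventually_atTop.1 (hg.eventually_ge_atTop (2 * tot (s + 1)))
      filter_upwards [h2.eventually_ge_atTop N] with v hv n hn
      exact hN n (hv.trans hn)
    filter_upwards [e1, e2, e3] with v h1 h2 h3
    exact ⟨h1, h2, h3⟩
  obtain ⟨ν, hν, h⟩ := extraction_forall_of_eventually key
  refine ⟨fun s => 2 ^ ν s - 1, ν, ⟨hν, fun s => rfl, fun s => (h s).1, fun s => (h s).2.1⟩,
    fun s => (h s).2.2⟩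

theorem sparse_TS {O : Set (List Bool)} {a ν : ℕ → ℕ} (h : Pos a ν) (g : ℕ → ℕ)
    (hg : ∀ s, ∀ n, a s ≤ n → 2 * tot (s + 1) ≤ g n) (n : ℕ) :
    {z ∈ TS O a | z.length ≤ n}.ncard ≤ g n := by
  have hex : ∃ s, n < a s := ⟨n + 1, h.smono.id_le (n + 1)⟩
  classical
  set s := Nat.find hex with hs
  have h1 : n < a s := Nat.find_spec hex
  have h2 : {z ∈ TS O a | z.length ≤ n} ⊆ TT O a s := fun z hz =>
    TS_short O a h.smono hz.1 (lt_of_le_of_lt hz.2 h1)
  have h3 := TT_finite O a s
  refine (Set.ncard_le_ncard h2 h3.1).trans (h3.2.trans ?_)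
  rcases Nat.eq_zero_or_pos s with h0 | h0
  · rw [h0]
    exact Nat.zero_le _
  · obtain ⟨t, ht⟩ : ∃ t, s = t + 1 := ⟨s - 1, by omega⟩
    rw [ht]
    refine hg t n ?_
    by_contra hlt
    exact Nat.find_min hex (m := t) (by omega) (not_le.1 hlt)

/-- arbitrarily sparse sets -/
theorem exists_sparse (O : Set (List Bool)) (g : ℕ → ℕ) (hg : Tendsto g atTop atTop) :
    ∃ T : Set (List Bool), (∀ n, {z ∈ T | z.length ≤ n}.ncard ≤ g n) ∧
      Null poly (join T O) {L | InNP (join T O) L ∨ InPSPACE (join T O) L} := by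
  obtain ⟨a, ν, h, h1⟩ := exists_pos g hg
  exact ⟨TS O a, sparse_TS h g h1, null_TS h⟩

end Pool.Agent.TH755.PM
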